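import Pool.Agent.H9.Lap.Targets

/-! Modules PHI, SUM, ENG of the board lp_modules (helper57). -/

namespace Pool.Agent.H57.Lap

open Finset Classical

open Pool.Agent.H9.Lap

theorem phi : T_PHI := by
  intro V _ f M m h0 hM hm hM0 hm0 hMm
  constructor
  · have h1 : ∀ v, (M + m) * (if 0 < f v then f v else 0) ≤ M * (f v + m) := by
      intro v
      have h2 := hM v
      have h3 := hm v
      split_ifs with h
      · nlinarith [mul_nonneg hm0 (sub_nonneg.2 h2)]
      · rw [mul_zero]
        exact mul_nonneg hM0 (by linarith)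
    have h2 : Phi f = ∑ v, (if 0 < f v then f v else 0) := by
      rw [Phi, Pos, Finset.sum_filter]
    have h3 := Finset.sum_le_sum fun v (_ : v ∈ (univ : Finset V)) => h1 v
    rw [← Finset.mul_sum, ← Finset.mul_sum, Finset.sum_add_distrib, h0, Finset.sum_const,
      Finset.card_univ, nsmul_eq_mul, ← h2] at h3
    linarith
  · have h1 : ∀ v, f v ^ 2 ≤ (M - m) * f v + M * m := by
      intro v
      nlinarith [mul_nonneg (sub_nonneg.2 (hM v)) (by linarith [hm v] : 0 ≤ f v + m)]
    have h3 := Finset.sum_le_sum fun v (_ : v ∈ (univ : Finset V)) => h1 v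
    rw [Finset.sum_add_distrib, ← Finset.mul_sum, h0, Finset.sum_const, Finset.card_univ,
      nsmul_eq_mul] at h3
    linarith

theorem sum : T_SUM := by
  intro V _ F f t lam he h0 hA hW
  have hCle : ∀ c ∈ Cst F f t, f c ≤ 0 := by
    intro c hc
    rw [Cst, Finset.mem_biUnion] at hc
    obtain ⟨s, _, hc⟩ := hc
    exact mem_Npos.1 (Finset.mem_inter.1 hc).2
  have hApos : ∀ s ∈ S0 F f t, 0 < f s ∧ ed F f s = t := by
    intro s hs
    simpa [S0] using hs
  have hdisj : Disjoint (S0 F f t) (Cst F f t) := by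
    rw [Finset.disjoint_left]
    intro s hs hc
    have := (hApos s hs).1
    have := hCle s hc
    linarith
  constructor
  · have h1 : ∀ s ∈ S0 F f t, nb F s \ S0 F f t = Cs F f s := by
      intro s hs
      ext v
      rw [Finset.mem_sdiff, mem_nb]
      constructor
      · rintro ⟨h2, h3⟩
        exact hA s hs v h3 h2
      · intro h2
        refine ⟨mem_nb.1 (Finset.mem_inter.1 h2).1, ?_⟩
        intro h3
        have h4 := (hApos v h3).1
        have h5 := mem_Npos.1 (Finset.mem_inter.1 h2).2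
        linarith
    have h2 := cut he (S0 F f t)
    have h3 : ∑ s ∈ S0 F f t, ∑ w ∈ nb F s \ S0 F f t, (f s - f w) =
        ∑ s ∈ S0 F f t, ((t : ℝ) * f s + ∑ w ∈ Cs F f s, (- f w)) := by
      refine Finset.sum_congr rfl fun s hs => ?_
      rw [h1 s hs]
      simp only [sub_eq_add_neg]
      rw [Finset.sum_add_distrib, Finset.sum_const, nsmul_eq_mul]
      congr 2
      have := (hApos s hs).2
      rw [ed] at this
      rw [Cs, this]
    have h4 : ∑ s ∈ S0 F f t, ∑ w ∈ Cs F f s, (- f w) =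
        ∑ c ∈ Cst F f t, (((S0 F f t).filter (fun s => c ∈ Cs F f s)).card : ℝ) * (- f c) := by
      have h5 : ∀ s ∈ S0 F f t, ∑ w ∈ Cs F f s, (- f w) =
          ∑ c ∈ Cst F f t, if c ∈ Cs F f s then (- f c) else 0 := by
        intro s hs
        rw [← Finset.sum_filter]
        refine Finset.sum_congr ?_ fun _ _ => rfl
        ext c
        rw [Finset.mem_filter]
        constructor
        · intro hc
          refine ⟨?_, hc⟩
          rw [Cst, Finset.mem_biUnion]
          exact ⟨s, hs, hc⟩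
        · exact fun hc => hc.2
      rw [Finset.sum_congr rfl h5, Finset.sum_comm]
      refine Finset.sum_congr rfl fun c _ => ?_
      rw [← Finset.sum_filter, Finset.sum_const, nsmul_eq_mul]
    rw [h3, Finset.sum_add_distrib, ← Finset.mul_sum, h4] at h2
    linarith
  · set A := S0 F f t with hAdef
    set C := Cst F f t with hCdef
    set W : Finset V := univ \ (A ∪ C) with hWdef
    have memW : ∀ v, v ∈ W ↔ v ∉ A ∧ v ∉ C := by
      intro v
      simp [hWdef]
    have h1 : ∀ v ∈ W, nb F v \ W = C := by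
      intro v hv
      rw [memW] at hv
      ext w
      rw [Finset.mem_sdiff, mem_nb, memW]
      constructor
      · rintro ⟨h2, h3⟩
        by_contra hw
        have hwA : w ∈ A := by
          by_contra h4
          exact h3 ⟨h4, hw⟩
        have h5 := hA w hwA v hv.1 h2.symm
        apply hv.2
        rw [hCdef, Cst, Finset.mem_biUnion]
        exact ⟨w, hwA, h5⟩
      · intro hw
        exact ⟨hW v hv.1 hv.2 w hw, fun h => h.2 hw⟩
    have h2 := cut he W
    have h3 : ∑ s ∈ W, ∑ w ∈ nb F s \ W, (f s - f w) =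
        ∑ s ∈ W, ((C.card : ℝ) * f s + ∑ w ∈ C, (- f w)) := by
      refine Finset.sum_congr rfl fun s hs => ?_
      rw [h1 s hs]
      simp only [sub_eq_add_neg]
      rw [Finset.sum_add_distrib, Finset.sum_const, nsmul_eq_mul]
    rw [h3, Finset.sum_add_distrib, ← Finset.mul_sum, Finset.sum_const, nsmul_eq_mul] at h2
    have h4 : ∑ v, f v = ∑ v ∈ W, f v + (∑ v ∈ A, f v + ∑ v ∈ C, f v) := by
      rw [← Finset.sum_union hdisj, hWdef, Finset.sum_sdiff (Finset.subset_univ _)]
    have h5 : (W.card : ℝ) = Fintype.card V - A.card - C.card := by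
      have h6 : W.card + (A ∪ C).card = Fintype.card V := by
        rw [hWdef, Finset.card_sdiff_add_card_eq_card (Finset.subset_univ _), Finset.card_univ]
      rw [Finset.card_union_of_disjoint hdisj] at h6
      have h7 : ((W.card + (A.card + C.card) : ℕ) : ℝ) = (Fintype.card V : ℝ) := by
        exact_mod_cast h6
      push_cast at h7
      linarith
    have h6 : ∑ c ∈ C, (- f c) = - ∑ c ∈ C, f c := Finset.sum_neg_distrib _
    rw [h0] at h4
    have h7 : ∑ v ∈ W, f v = ∑ c ∈ C, (- f c) - ∑ v ∈ A, f v := by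
      rw [h6]
      linarith
    rw [h7, h5] at h2
    linear_combination -h2

theorem eng : T_ENG := by
  intro V _ F f lam K he h0 hK
  set D : V → V → ℝ := fun u v => if F.Adj u v then (f u - f v) ^ 2 else 0 with hD
  have hDs : ∀ u v, D u v = D v u := by
    intro u v
    simp only [hD]
    by_cases h : F.Adj u v
    · rw [if_pos h, if_pos h.symm]
      ring
    · rw [if_neg h, if_neg fun h' => h h'.symm]
  -- energy identity
  have hE : lam * ∑ v, f v ^ 2 = (1 / 2) * ∑ u, ∑ v, D u v := by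
    have h1 : ∀ u, lam * f u ^ 2 = ∑ v, (if F.Adj u v then f u * (f u - f v) else 0) := by
      intro u
      have h2 := he u
      rw [nb, Finset.sum_filter] at h2
      have h3 : ∑ v, (if F.Adj u v then f u * (f u - f v) else 0) =
          f u * ∑ v, (if F.Adj u v then (f u - f v) else 0) := by
        rw [Finset.mul_sum]
        refine Finset.sum_congr rfl fun v _ => ?_
        split_ifs <;> simp
      rw [h3, h2]
      ring
    have h2 : lam * ∑ v, f v ^ 2 = ∑ u, ∑ v, (if F.Adj u v then f u * (f u - f v) else 0) := by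
      rw [Finset.mul_sum]
      exact Finset.sum_congr rfl fun u _ => h1 u
    have h3 : lam * ∑ v, f v ^ 2 = ∑ u, ∑ v, (if F.Adj u v then f v * (f v - f u) else 0) := by
      rw [h2, Finset.sum_comm]
      refine Finset.sum_congr rfl fun u _ => Finset.sum_congr rfl fun v _ => ?_
      by_cases h : F.Adj u v
      · rw [if_pos h, if_pos h.symm]
      · rw [if_neg h, if_neg fun h' => h h'.symm]
    have h4 : lam * ∑ v, f v ^ 2 + lam * ∑ v, f v ^ 2 = ∑ u, ∑ v, D u v := by
      nth_rewrite 1 [h2]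
      rw [h3, ← Finset.sum_add_distrib]
      refine Finset.sum_congr rfl fun u _ => ?_
      rw [← Finset.sum_add_distrib]
      refine Finset.sum_congr rfl fun v _ => ?_
      simp only [hD]
      split_ifs
      · ring
      · simp
    linarith
  -- splitting
  have hsp : ∀ g : V → ℝ, ∑ v, g v = ∑ v ∈ K, g v + ∑ v ∈ Kᶜ, g v := fun g =>
    (Finset.sum_add_sum_compl K g).symm
  have hEN : EN F f (PR K) = (1 / 2) * ∑ u ∈ Kᶜ, ∑ v ∈ Kᶜ, D u v := by
    rw [EN]
    congr 1
    rw [hsp]
    have h1 : ∑ u ∈ K, ∑ v, (if F.Adj u v ∧ PR K u v then (f u - f v) ^ 2 else 0) = 0 := by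
      refine Finset.sum_eq_zero fun u hu => Finset.sum_eq_zero fun v _ => ?_
      rw [if_neg]
      rintro ⟨_, h⟩
      exact h.1 hu
    rw [h1, zero_add]
    refine Finset.sum_congr rfl fun u hu => ?_
    rw [hsp]
    have h2 : ∑ v ∈ K, (if F.Adj u v ∧ PR K u v then (f u - f v) ^ 2 else 0) = 0 := by
      refine Finset.sum_eq_zero fun v hv => ?_
      rw [if_neg]
      rintro ⟨_, h⟩
      exact h.2 hv
    rw [h2, zero_add]
    refine Finset.sum_congr rfl fun v hv => ?_
    simp only [hD]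
    have hu' : u ∉ K := Finset.mem_compl.1 hu
    have hv' : v ∉ K := Finset.mem_compl.1 hv
    simp [PR, hu', hv']
  have hKK : ∀ u ∈ K, ∑ v ∈ K, D u v = ∑ v ∈ K, (f u - f v) ^ 2 := by
    intro u hu
    refine Finset.sum_congr rfl fun v hv => ?_
    simp only [hD]
    by_cases huv : u = v
    · subst huv
      simp
    · rw [if_pos (hK u hu v hv huv)]
  have hKR : ∀ u ∈ K, ∑ v ∈ Kᶜ, D u v =
      ∑ v ∈ Kᶜ, (f v - f u) ^ 2 - ∑ x ∈ nn F u, (f x - f u) ^ 2 := by
    intro u hu
    have hsub : nn F u ⊆ Kᶜ := by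
      intro x hx
      rw [mem_nn] at hx
      rw [Finset.mem_compl]
      intro hxK
      exact hx.2 (hK u hu x hxK (Ne.symm hx.1))
    rw [← Finset.sum_sdiff hsub (f := fun v => (f v - f u) ^ 2), add_sub_cancel_right]
    have h1 : ∑ v ∈ Kᶜ, D u v = ∑ v ∈ Kᶜ \ nn F u, D u v + ∑ v ∈ nn F u, D u v :=
      (Finset.sum_sdiff hsub).symm
    have h2 : ∑ v ∈ nn F u, D u v = 0 := by
      refine Finset.sum_eq_zero fun v hv => ?_
      rw [mem_nn] at hv
      simp only [hD]
      rw [if_neg hv.2]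
    rw [h1, h2, add_zero]
    refine Finset.sum_congr rfl fun v hv => ?_
    rw [Finset.mem_sdiff, mem_nn, Finset.mem_compl] at hv
    have hadj : F.Adj u v := by
      by_contra hcon
      apply hv.2
      refine ⟨?_, hcon⟩
      rintro rfl
      exact hv.1 hu
    simp only [hD]
    rw [if_pos hadj]
    ring
  have hRK : ∑ u ∈ Kᶜ, ∑ v ∈ K, D u v = ∑ u ∈ K, ∑ v ∈ Kᶜ, D u v := by
    rw [Finset.sum_comm]
    exact Finset.sum_congr rfl fun u _ => Finset.sum_congr rfl fun v _ => hDs v u
  have hTot : ∑ u, ∑ v, D u v = ∑ u ∈ K, ∑ v ∈ K, D u v + 2 * ∑ u ∈ K, ∑ v ∈ Kᶜ, D u v +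
      ∑ u ∈ Kᶜ, ∑ v ∈ Kᶜ, D u v := by
    rw [hsp (fun u => ∑ v, D u v), Finset.sum_congr rfl fun u _ => hsp (fun v => D u v),
      Finset.sum_congr rfl fun u (_ : u ∈ Kᶜ) => hsp (fun v => D u v), Finset.sum_add_distrib,
      Finset.sum_add_distrib, hRK]
    ring
  set S1 := ∑ k ∈ K, f k with hS1
  set S2 := ∑ k ∈ K, f k ^ 2 with hS2
  set Q := ∑ v, f v ^ 2 with hQ
  have hR1 : ∑ v ∈ Kᶜ, f v = - S1 := by
    have := hsp f
    rw [h0] at this
    linarith
  have hR2 : ∑ v ∈ Kᶜ, f v ^ 2 = Q - S2 := by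
    have := hsp (fun v => f v ^ 2)
    linarith
  have hcard : ((Kᶜ).card : ℝ) = (Fintype.card V : ℝ) - K.card := by
    rw [Finset.card_compl, Nat.cast_sub (Finset.card_le_univ _)]
  have hsq : ∀ (X : Finset V) (c : ℝ), ∑ v ∈ X, (f v - c) ^ 2 =
      ∑ v ∈ X, f v ^ 2 - 2 * c * ∑ v ∈ X, f v + X.card * c ^ 2 := by
    intro X c
    have : ∀ v ∈ X, (f v - c) ^ 2 = f v ^ 2 - 2 * c * f v + c ^ 2 := fun v _ => by ring
    rw [Finset.sum_congr rfl this, Finset.sum_add_distrib, Finset.sum_sub_distrib,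
      ← Finset.mul_sum, Finset.sum_const, nsmul_eq_mul]
  have hA1 : ∑ u ∈ K, ∑ v ∈ K, D u v = 2 * (K.card * S2 - S1 ^ 2) := by
    rw [Finset.sum_congr rfl hKK]
    have : ∀ u ∈ K, ∑ v ∈ K, (f u - f v) ^ 2 = S2 - 2 * f u * S1 + K.card * f u ^ 2 := by
      intro u _
      rw [← hsq K (f u)]
      exact Finset.sum_congr rfl fun v _ => by ring
    rw [Finset.sum_congr rfl this, Finset.sum_add_distrib, Finset.sum_sub_distrib,
      Finset.sum_const, nsmul_eq_mul, ← Finset.mul_sum, ← Finset.sum_mul, ← Finset.mul_sum]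
    ring
  have hA2 : ∑ u ∈ K, ∑ v ∈ Kᶜ, D u v = K.card * (Q - S2) + 2 * S1 ^ 2 +
      ((Fintype.card V : ℝ) - K.card) * S2 - ∑ k ∈ K, ∑ x ∈ nn F k, (f x - f k) ^ 2 := by
    rw [Finset.sum_congr rfl hKR, Finset.sum_sub_distrib]
    congr 1
    have : ∀ u ∈ K, ∑ v ∈ Kᶜ, (f v - f u) ^ 2 = (Q - S2) - 2 * f u * (-S1) +
        ((Fintype.card V : ℝ) - K.card) * f u ^ 2 := by
      intro u _
      rw [hsq Kᶜ (f u), hR1, hR2, hcard]
    rw [Finset.sum_congr rfl this, Finset.sum_add_distrib, Finset.sum_sub_distrib,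
      Finset.sum_const, nsmul_eq_mul, ← Finset.mul_sum, ← Finset.sum_mul, ← Finset.mul_sum]
    ring
  rw [hEN]
  rw [hTot, hA1, hA2] at hE
  linear_combination hE

end Pool.Agent.H57.Lap
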